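import Pool.Agent.H64.GS.Stm6
import Pool.Agent.H47.GS.Dim

/-! The dimension of a space of continuous functions with values in the antiperiodic functions on
`ℤ/2^a`, from the reductions modulo the uniformizer of its integral elements. -/

set_option autoImplicit false

namespace Pool.Agent.H24.GS

open Pool.Agent.H64.GS

/-! ### integral and even elements of `ℚ₂` -/

lemma int_add {x y : ℚ_[2]} (hx : ‖x‖ ≤ 1) (hy : ‖y‖ ≤ 1) : ‖x + y‖ ≤ 1 :=
  (Padic.nonarchimedean x y).trans (max_le hx hy)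

lemma int_sub {x y : ℚ_[2]} (hx : ‖x‖ ≤ 1) (hy : ‖y‖ ≤ 1) : ‖x - y‖ ≤ 1 := by
  rw [sub_eq_add_neg]
  exact int_add hx (by rwa [norm_neg])

lemma ev_add {x y : ℚ_[2]} (hx : ‖x‖ < 1) (hy : ‖y‖ < 1) : ‖x + y‖ < 1 :=
  (Padic.nonarchimedean x y).trans_lt (max_lt hx hy)

lemma ev_sub {x y : ℚ_[2]} (hx : ‖x‖ < 1) (hy : ‖y‖ < 1) : ‖x - y‖ < 1 := by
  rw [sub_eq_add_neg]
  exact ev_add hx (by rwa [norm_neg])

lemma norm_two : ‖(2 : ℚ_[2])‖ = (2 : ℝ)⁻¹ := by
  have := Padic.norm_p (p := 2)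
  simpa using this

lemma ev_two_mul {x : ℚ_[2]} (hx : ‖x‖ ≤ 1) : ‖2 * x‖ < 1 := by
  rw [norm_mul, norm_two]
  linarith

lemma int_half {x : ℚ_[2]} (hx : ‖x‖ < 1) : ‖x / 2‖ ≤ 1 := by
  have h1 : ‖x‖ ≤ (2 : ℝ)⁻¹ := by
    have := (Padic.norm_lt_pow_iff_norm_le_pow_sub_one (p := 2) x 0).1 (by simpa using hx)
    simpa [zpow_neg_one] using this
  rw [norm_div, norm_two]
  rw [div_le_one (by norm_num)]
  exact h1

/-- parity -/
noncomputable def par (x : ℚ_[2]) : ZMod 2 :=
  if h : ‖x‖ ≤ 1 then PadicInt.toZMod ⟨x, h⟩ else 0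

lemma par_ne {x y : ℚ_[2]} (hx : ‖x‖ ≤ 1) (hy : ‖y‖ ≤ 1) (h : par x ≠ par y) : ‖x - y‖ = 1 := by
  unfold par at h
  rw [dif_pos hx, dif_pos hy] at h
  let u : ℤ_[2] := ⟨x, hx⟩
  let v : ℤ_[2] := ⟨y, hy⟩
  have := Pool.Agent.H47.GS.norm_of_toZMod (u - v) (by rw [map_sub]; exact sub_ne_zero.2 h)
  rw [← this]
  rfl

lemma par_eq {x y : ℚ_[2]} (hx : ‖x‖ ≤ 1) (hy : ‖y‖ ≤ 1) (h : par x = par y) : ‖x - y‖ < 1 := by
  unfold par at h
  rw [dif_pos hx, dif_pos hy] at h
  let u : ℤ_[2] := ⟨x, hx⟩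
  let v : ℤ_[2] := ⟨y, hy⟩
  obtain ⟨z, hz⟩ := Pool.Agent.H47.GS.two_dvd_of_toZMod (u - v)
    (by rw [map_sub]; exact sub_eq_zero.2 h)
  have h2 : x - y = 2 * (z : ℚ_[2]) := congrArg (fun w : ℤ_[2] => (w : ℚ_[2])) hz
  rw [h2]
  exact ev_two_mul z.2

variable {N a b : ℕ}

/-- the difference operator -/
noncomputable def dd (f : IndV N a) : IndV N a := fun y i => f (y - 1) i - f y i

lemma alt_apply {f : IndV N a} (hf : f ∈ Alt N a b) (y : ZMod (2 ^ a)) (i : Fin N) :
    f (y + 2 ^ b) i = - f y i := by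
  have := congrFun (hf y) i
  simpa using this

lemma alt_sub {f : IndV N a} (hf : f ∈ Alt N a b) (y : ZMod (2 ^ a)) (i : Fin N) :
    f (y - 2 ^ b) i = - f y i := by
  have := alt_apply hf (y - 2 ^ b) i
  rw [sub_add_cancel] at this
  rw [this, neg_neg]

/-- window sums -/
noncomputable def win (b : ℕ) (f : IndV N a) (y : ZMod (2 ^ a)) (i : Fin N) : ℚ_[2] :=
  ∑ t ∈ Finset.range (2 ^ b), f (y - (t : ZMod (2 ^ a))) i

lemma win_sub {f : IndV N a} (hf : f ∈ Alt N a b) (y : ZMod (2 ^ a)) (i : Fin N) :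
    win b f (y - 1) i = win b f y i - 2 * f y i := by
  have h1 : win b f (y - 1) i + f y i =
      ∑ t ∈ Finset.range (2 ^ b + 1), f (y - (t : ZMod (2 ^ a))) i := by
    rw [Finset.sum_range_succ']
    unfold win
    congr 1
    · refine Finset.sum_congr rfl fun t _ => ?_
      congr 1
      push_cast
      ring
    · simp
  have h2 : win b f y i + f (y - 2 ^ b) i =
      ∑ t ∈ Finset.range (2 ^ b + 1), f (y - (t : ZMod (2 ^ a))) i := by
    rw [Finset.sum_range_succ]
    unfold win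
    congr 3
    push_cast
    rfl
  rw [alt_sub hf] at h2
  linear_combination h1 - h2

lemma dpi_apply (f : IndV N a) (y : ZMod (2 ^ a)) (i : Fin N) :
    dpi b f y i = -(win b f y i) / 2 := rfl

lemma dd_dpi {f : IndV N a} (hf : f ∈ Alt N a b) : dd (dpi b f) = f := by
  funext y i
  show dpi b f (y - 1) i - dpi b f y i = f y i
  rw [dpi_apply, dpi_apply, win_sub hf]
  ring

lemma dpi_alt {f : IndV N a} (hf : f ∈ Alt N a b) : dpi b f ∈ Alt N a b := by
  intro y
  funext i
  show dpi b f (y + 2 ^ b) i = - dpi b f y i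
  have : win b f (y + 2 ^ b) i = - win b f y i := by
    unfold win
    rw [← Finset.sum_neg_distrib]
    refine Finset.sum_congr rfl fun t _ => ?_
    rw [← alt_apply hf]
    congr 1
    ring
  rw [dpi_apply, dpi_apply, this]
  ring

lemma dpi_sub (f f' : IndV N a) : dpi b (f - f') = dpi b f - dpi b f' := by
  funext y i
  show dpi b (f - f') y i = dpi b f y i - dpi b f' y i
  rw [dpi_apply, dpi_apply, dpi_apply]
  have : win b (f - f') y i = win b f y i - win b f' y i := by
    unfold win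
    rw [← Finset.sum_sub_distrib]
    rfl
  rw [this]
  ring

/-- integral functions -/
def Int' (f : IndV N a) : Prop := ∀ y i, ‖f y i‖ ≤ 1

lemma win_int {f : IndV N a} (hf : Int' f) (y : ZMod (2 ^ a)) (i : Fin N) :
    ‖win b f y i‖ ≤ 1 := by
  unfold win
  generalize 2 ^ b = M
  induction M with
  | zero => simp
  | succ M ih =>
    rw [Finset.sum_range_succ]
    exact int_add ih (hf _ _)

lemma eps_eq (f : IndV N a) (i : Fin N) : eps b f i = win b f 0 i := by
  unfold eps win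
  simp

/-- the reduction modulo the uniformizer decides divisibility by the uniformizer -/
lemma dpi_int {f : IndV N a} (hf : f ∈ Alt N a b) (hI : Int' f) (h : ∀ i, ‖eps b f i‖ < 1) :
    Int' (dpi b f) := by
  have : NeZero (2 ^ a) := ⟨by positivity⟩
  intro y i
  have key : ∀ n : ℕ, ‖win b f (n : ZMod (2 ^ a)) i‖ < 1 := by
    intro n
    induction n with
    | zero =>
      have := h i
      rw [eps_eq] at this
      simpa using this
    | succ n ih =>
      have h1 := win_sub hf ((n + 1 : ℕ) : ZMod (2 ^ a)) i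
      have h2 : ((n + 1 : ℕ) : ZMod (2 ^ a)) - 1 = n := by push_cast; ring
      rw [h2] at h1
      have h3 : win b f ((n + 1 : ℕ) : ZMod (2 ^ a)) i =
          win b f (n : ZMod (2 ^ a)) i + 2 * f ((n + 1 : ℕ) : ZMod (2 ^ a)) i := by
        rw [h1]; ring
      rw [h3]
      exact ev_add ih (ev_two_mul (hI _ _))
  have h1 := key y.val
  rw [ZMod.natCast_zmod_val] at h1
  rw [dpi_apply, neg_div, norm_neg]
  exact int_half h1

lemma dd_int {f : IndV N a} (hf : Int' f) : Int' (dd f) := fun _ _ => int_sub (hf _ _) (hf _ _)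

lemma dd_iter_int {f : IndV N a} (hf : Int' f) (n : ℕ) : Int' (dd^[n] f) := by
  induction n with
  | zero => exact hf
  | succ n ih =>
    rw [Function.iterate_succ_apply']
    exact dd_int ih

lemma dd_iter {f : IndV N a} (hf : Int' f) (m : ℕ) (y : ZMod (2 ^ a)) (i : Fin N) :
    ‖dd^[2 ^ m] f y i - (f (y - 2 ^ m) i - f y i)‖ < 1 := by
  induction m generalizing f y with
  | zero =>
    simp [dd]
  | succ m ih =>
    rw [pow_succ, mul_two, Function.iterate_add_apply]
    have hk := dd_iter_int hf (2 ^ m)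
    have h1 := ih hk y
    have h2 := ih hf (y - 2 ^ m)
    have h3 := ih hf y
    have h4 : (y - 2 ^ m - 2 ^ m : ZMod (2 ^ a)) = y - 2 ^ (m + 1) := by ring
    rw [h4] at h2
    have h5 := ev_add (ev_add h1 (ev_sub h2 h3)) (ev_sub (ev_two_mul (hf y i))
      (ev_two_mul (hf (y - 2 ^ m) i)))
    refine lt_of_eq_of_lt ?_ h5
    congr 1
    ring

lemma dpi_iter_alt {f : IndV N a} (hf : f ∈ Alt N a b) (n : ℕ) : (dpi b)^[n] f ∈ Alt N a b := by
  induction n with
  | zero => exact hf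
  | succ n ih =>
    rw [Function.iterate_succ_apply']
    exact dpi_alt ih

lemma dd_dpi_iter {f : IndV N a} (hf : f ∈ Alt N a b) (n : ℕ) : dd^[n] ((dpi b)^[n] f) = f := by
  induction n with
  | zero => rfl
  | succ n ih =>
    rw [Function.iterate_succ_apply, Function.iterate_succ_apply', dd_dpi (dpi_iter_alt hf n), ih]

/-- an element whose quotient by the `2^b`-th power of the uniformizer is integral is even -/
lemma even_of_int {f : IndV N a} (hf : f ∈ Alt N a b) (h : Int' ((dpi b)^[2 ^ b] f))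
    (y : ZMod (2 ^ a)) (i : Fin N) : ‖f y i‖ < 1 := by
  have h1 := dd_iter h b y i
  rw [dd_dpi_iter hf, alt_sub (dpi_iter_alt hf _)] at h1
  have h2 := ev_sub h1 (ev_two_mul (h y i))
  refine lt_of_eq_of_lt ?_ h2
  congr 1
  ring

/-! ### spaces of functions -/

/-- division by the uniformizer -/
noncomputable def PP (b : ℕ) (c : GQ → IndV N a) : GQ → IndV N a := fun g => dpi b (c g)

lemma PP_iter (c : GQ → IndV N a) (n : ℕ) (g : GQ) : (PP b)^[n] c g = (dpi b)^[n] (c g) := by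
  induction n with
  | zero => rfl
  | succ n ih =>
    rw [Function.iterate_succ_apply', Function.iterate_succ_apply', ← ih]
    rfl

lemma PP_sub (c c' : GQ → IndV N a) : PP b (c - c') = PP b c - PP b c' := by
  funext g
  exact dpi_sub _ _

/-- representatives of the values of a function on a finite set -/
lemma card_image_le {α β : Type} [Nonempty α] [DecidableEq α] [DecidableEq β] (F : Finset α) (φ : α → β) (X : ℕ)
    (h : ∀ F' ⊆ F, (∀ c ∈ F', ∀ c' ∈ F', c ≠ c' → φ c ≠ φ c') → F'.card ≤ X) :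
    (F.image φ).card ≤ X := by
  obtain ⟨F', hF', hinj, him⟩ : ∃ F' ⊆ F, Set.InjOn φ (F' : Set α) ∧ F'.image φ = F.image φ := by
    choose! s hs1 hs2 using fun y (hy : y ∈ F.image φ) => Finset.mem_image.1 hy
    refine ⟨(F.image φ).image s, ?_, ?_, ?_⟩
    · intro x hx
      obtain ⟨y, hy, rfl⟩ := Finset.mem_image.1 hx
      exact hs1 y hy
    · intro x hx x' hx' hxx
      obtain ⟨y, hy, rfl⟩ := Finset.mem_image.1 (Finset.mem_coe.1 hx)
      obtain ⟨y', hy', rfl⟩ := Finset.mem_image.1 (Finset.mem_coe.1 hx')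
      simp only [hs2 y hy, hs2 y' hy'] at hxx
      rw [hxx]
    · ext y
      constructor
      · intro hy
        obtain ⟨x, hx, rfl⟩ := Finset.mem_image.1 hy
        obtain ⟨y', hy', rfl⟩ := Finset.mem_image.1 hx
        rw [hs2 y' hy']
        exact hy'
      · intro hy
        exact Finset.mem_image.2 ⟨s y, Finset.mem_image_of_mem _ hy, hs2 y hy⟩
  rw [← him, Finset.card_image_of_injOn hinj]
  exact h F' hF' fun c hc c' hc' hne heq => hne (hinj hc hc' heq)

lemma chain (Z : Submodule ℚ_[2] (GQ → IndV N a)) (X : ℕ)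
    (hA : ∀ c ∈ Z, ∀ g, c g ∈ Alt N a b) (hP : ∀ c ∈ Z, (fun g => dpi b (c g)) ∈ Z)
    (hF : ∀ F : Finset (GQ → IndV N a), (∀ c ∈ F, c ∈ Z ∧ ∀ g y i, ‖c g y i‖ ≤ 1) →
      (∀ c ∈ F, ∀ c' ∈ F, c ≠ c' → ∃ g i, ‖eps b (c g) i - eps b (c' g) i‖ = 1) → F.card ≤ X)
    (j : ℕ) : ∀ F : Finset (GQ → IndV N a), (∀ c ∈ F, c ∈ Z ∧ ∀ g y i, ‖c g y i‖ ≤ 1) →
      (∀ c ∈ F, ∀ c' ∈ F, c ≠ c' → ∃ g, ¬ Int' ((PP b)^[j] (c - c') g)) → F.card ≤ X ^ j := by
  classical
  induction j with
  | zero =>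
    intro F h1 h2
    rw [pow_zero, Finset.card_le_one]
    intro c hc c' hc'
    by_contra hne
    obtain ⟨g, hg⟩ := h2 c hc c' hc' hne
    exact hg fun y i => int_sub ((h1 c hc).2 g y i) ((h1 c' hc').2 g y i)
  | succ j ih =>
    intro F h1 h2
    let φ : (GQ → IndV N a) → GQ → Fin N → ZMod 2 := fun c g i => par (eps b (c g) i)
    have hint : ∀ c ∈ F, ∀ g i, ‖eps b (c g) i‖ ≤ 1 := by
      intro c hc g i
      rw [eps_eq]
      exact win_int ((h1 c hc).2 g) _ _
    have hX : (F.image φ).card ≤ X := by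
      refine card_image_le F φ X fun F' hF' hne => hF F' (fun c hc => h1 c (hF' hc)) ?_
      intro c hc c' hc' hcc
      have h3 := hne c hc c' hc' hcc
      have : ∃ g i, par (eps b (c g) i) ≠ par (eps b (c' g) i) := by
        by_contra hcon
        push Not at hcon
        exact h3 (funext fun g => funext fun i => hcon g i)
      obtain ⟨g, i, hgi⟩ := this
      exact ⟨g, i, par_ne (hint c (hF' hc) g i) (hint c' (hF' hc') g i) hgi⟩
    have hcl : ∀ v ∈ F.image φ, (F.filter fun c => φ c = v).card ≤ X ^ j := by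
      intro v hv
      obtain ⟨r, hr, hrv⟩ := Finset.mem_image.1 hv
      have hinj : Set.InjOn (fun c => PP b (c - r)) ((F.filter fun c => φ c = v : Finset _) :
          Set (GQ → IndV N a)) := by
        intro c hc c' hc' hcc
        have hcF := (Finset.mem_filter.1 (Finset.mem_coe.1 hc)).1
        have hcF' := (Finset.mem_filter.1 (Finset.mem_coe.1 hc')).1
        have h3 : ∀ g, c g - r g = c' g - r g := by
          intro g
          have h4 := congrFun hcc g
          have h5 : dpi b (c g - r g) = dpi b (c' g - r g) := h4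
          rw [← dd_dpi ((Alt N a b).sub_mem (hA c (h1 c hcF).1 g) (hA r (h1 r hr).1 g)), h5,
            dd_dpi ((Alt N a b).sub_mem (hA c' (h1 c' hcF').1 g) (hA r (h1 r hr).1 g))]
        funext g
        exact sub_left_injective (h3 g)
      rw [← Finset.card_image_of_injOn hinj]
      refine ih _ ?_ ?_
      · intro e he
        obtain ⟨c, hc, rfl⟩ := Finset.mem_image.1 he
        obtain ⟨hcF, hcv⟩ := Finset.mem_filter.1 hc
        have hZ : c - r ∈ Z := Z.sub_mem (h1 c hcF).1 (h1 r hr).1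
        refine ⟨hP _ hZ, fun g y i => ?_⟩
        refine dpi_int (hA _ hZ g) (fun y i => int_sub ((h1 c hcF).2 g y i) ((h1 r hr).2 g y i))
          (fun i => ?_) y i
        have h5 : eps b ((c - r) g) i = eps b (c g) i - eps b (r g) i := by
          unfold eps
          rw [← Finset.sum_sub_distrib]
          rfl
        rw [h5]
        refine par_eq (hint c hcF g i) (hint r hr g i) ?_
        have := congrFun (congrFun (hcv.trans hrv.symm) g) i
        exact this
      · intro e he e' he' hne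
        obtain ⟨c, hc, rfl⟩ := Finset.mem_image.1 he
        obtain ⟨c', hc', rfl⟩ := Finset.mem_image.1 he'
        obtain ⟨hcF, -⟩ := Finset.mem_filter.1 hc
        obtain ⟨hcF', -⟩ := Finset.mem_filter.1 hc'
        obtain ⟨g, hg⟩ := h2 c hcF c' hcF' (fun h => hne (by rw [h]))
        refine ⟨g, ?_⟩
        rw [← PP_sub, sub_sub_sub_cancel_right]
        rwa [Function.iterate_succ_apply] at hg
    calc F.card ≤ X ^ j * (F.image φ).card := Finset.card_le_mul_card_image F _ hcl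
      _ ≤ X ^ j * X := Nat.mul_le_mul_left _ hX
      _ = X ^ (j + 1) := (pow_succ _ _).symm

/-- currying -/
def cur (N a : ℕ) : (GQ → IndV N a) ≃ₗ[ℚ_[2]] (GQ × ZMod (2 ^ a) → Fin N → ℚ_[2]) where
  toFun c := fun p => c p.1 p.2
  invFun e := fun g y => e (g, y)
  left_inv _ := rfl
  right_inv _ := rfl
  map_add' _ _ := rfl
  map_smul' _ _ := rfl

/-- **Job 10** -/
theorem dimAlt : StDimAlt := by
  classical
  intro N a b hba Z X hcont hA hP hF
  have : NeZero (2 ^ a) := ⟨by positivity⟩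
  have hGQ := Pool.Agent.H47.GS.compact_GQ
  let Z' : Submodule ℚ_[2] (GQ × ZMod (2 ^ a) → Fin N → ℚ_[2]) :=
    Z.map (cur N a : (GQ → IndV N a) →ₗ[ℚ_[2]] (GQ × ZMod (2 ^ a) → Fin N → ℚ_[2]))
  have hmem : ∀ e ∈ Z', ∃ c ∈ Z, cur N a c = e := fun e he => Submodule.mem_map.1 he
  have key := Pool.Agent.H47.GS.dim_core Z' (X ^ 2 ^ b) ?_ ?_
  · let eqv : Z ≃ₗ[ℚ_[2]] Z' := (cur N a).submoduleMap Z
    obtain ⟨h1, h2⟩ := key
    refine ⟨Module.Finite.equiv eqv.symm, ?_⟩
    rw [eqv.finrank_eq]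
    exact h2
  · intro e he
    obtain ⟨c, hc, rfl⟩ := hmem e he
    have h1 : IsCompact (Set.range c) := isCompact_range (hcont c hc)
    obtain ⟨C, hC⟩ := h1.isBounded.exists_norm_le
    refine ⟨C, fun p i => ?_⟩
    refine (norm_le_pi_norm (c p.1 p.2) i).trans ((norm_le_pi_norm (c p.1) p.2).trans ?_)
    exact hC _ ⟨p.1, rfl⟩
  · intro F h1 h2
    have hinj : Function.Injective (cur N a).symm := (cur N a).symm.injective
    rw [← Finset.card_image_of_injective F hinj]
    have h3 : ∀ e ∈ F, (cur N a).symm e ∈ Z := by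
      intro e he
      obtain ⟨c, hc, hce⟩ := hmem e (h1 e he).1
      rw [← hce, LinearEquiv.symm_apply_apply]
      exact hc
    refine chain Z X hA hP hF (2 ^ b) _ ?_ ?_
    · intro c hc
      obtain ⟨e, he, rfl⟩ := Finset.mem_image.1 hc
      exact ⟨h3 e he, fun g y i => (h1 e he).2 (g, y) i⟩
    · intro c hc c' hc' hne
      obtain ⟨e, he, rfl⟩ := Finset.mem_image.1 hc
      obtain ⟨e', he', rfl⟩ := Finset.mem_image.1 hc'
      obtain ⟨p, i, hpi⟩ := h2 e he e' he' (fun h => hne (by rw [h]))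
      refine ⟨p.1, fun hI => ?_⟩
      rw [PP_iter] at hI
      have h5 := even_of_int ((Alt N a b).sub_mem (hA _ (h3 e he) p.1) (hA _ (h3 e' he') p.1)) hI
        p.2 i
      have h6 : ‖e p i - e' p i‖ < 1 := h5
      rw [hpi] at h6
      exact lt_irrefl _ h6

end Pool.Agent.H24.GS
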