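import Pool.Agent.H59.GS.Quad
import Pool.Agent.H64.GS.Stm7

set_option autoImplicit false

/-! Shapiro's lemma for the kernel of a character of order `2 ^ a` of a subgroup of the absolute
Galois group (the adaptation of `Pool.Agent.H47.GS.Ind` to a subgroup). -/

namespace Pool.Agent.H24.GS

open NumberField Pool.Agent.H64.GS Pool.Agent.H59.GS

variable {N a : ℕ} {Γ : Subgroup GQ}

theorem kapR_mul (κ : Γ →* Multiplicative (ZMod (2 ^ a))) (g h : Γ) :
    kapR κ (g * h) = kapR κ g + kapR κ h := by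
  unfold kapR
  rw [map_mul, toAdd_mul]

theorem kapR_one (κ : Γ →* Multiplicative (ZMod (2 ^ a))) : kapR κ 1 = 0 := by
  unfold kapR
  rw [map_one, toAdd_one]

theorem kapR_inv (κ : Γ →* Multiplicative (ZMod (2 ^ a))) (g : Γ) : kapR κ g⁻¹ = - kapR κ g := by
  unfold kapR
  rw [map_inv, toAdd_inv]

theorem mem_kerR_iff (κ : Γ →* Multiplicative (ZMod (2 ^ a))) (g : Γ) :
    g ∈ κ.ker ↔ kapR κ g = 0 := by
  rw [MonoidHom.mem_ker]
  unfold kapR
  exact Iff.rfl

theorem actR_isAct (ρ : Γ →* GL (Fin N) ℤ_[2]) : IsAct (actR ρ) where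
  one v := by
    funext i
    unfold actR
    rw [map_one]
    have h1 : ∀ j, ((((1 : GL (Fin N) ℤ_[2]) : Matrix (Fin N) (Fin N) ℤ_[2]) i j : ℤ_[2]) : ℚ_[2]) * v j =
        if i = j then v j else 0 := by
      intro j
      rw [Units.val_one, Matrix.one_apply]
      split_ifs
      · rw [PadicInt.coe_one, one_mul]
      · rw [PadicInt.coe_zero, zero_mul]
    rw [Finset.sum_congr rfl fun j _ => h1 j, Finset.sum_ite_eq]
    simp
  mul g h v := by
    funext i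
    unfold actR
    rw [map_mul]
    simp only [Matrix.GeneralLinearGroup.coe_mul, Matrix.mul_apply]
    have h1 : ∀ j, (((∑ k, (ρ g : Matrix (Fin N) (Fin N) ℤ_[2]) i k *
        (ρ h : Matrix (Fin N) (Fin N) ℤ_[2]) k j : ℤ_[2]) : ℚ_[2])) * v j =
        ∑ k, (((ρ g : Matrix (Fin N) (Fin N) ℤ_[2]) i k : ℤ_[2]) : ℚ_[2]) *
          ((((ρ h : Matrix (Fin N) (Fin N) ℤ_[2]) k j : ℤ_[2]) : ℚ_[2]) * v j) := by
      intro j
      rw [PadicInt.coe_sum, Finset.sum_mul]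
      refine Finset.sum_congr rfl fun k _ => ?_
      rw [PadicInt.coe_mul]
      ring
    rw [Finset.sum_congr rfl fun j _ => h1 j, Finset.sum_comm]
    refine Finset.sum_congr rfl fun k _ => ?_
    rw [Finset.mul_sum]
  add g v w := actR_add ρ g v w

theorem actR_cont (ρ : Γ →* GL (Fin N) ℤ_[2]) (g : Γ) : Continuous (actR ρ g) := by
  unfold actR
  fun_prop

theorem actR_triv (ρ : Γ →* GL (Fin N) ℤ_[2]) {g : Γ} (hg : ρ g = 1) (v : Fin N → ℚ_[2]) :
    actR ρ g v = v := by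
  have h1 : actR ρ g v = actR ρ 1 v := by
    unfold actR
    rw [hg, map_one]
  rw [h1]
  exact (actR_isAct ρ).one v

/-- the induced cocycle -/
noncomputable def indR (ρ : Γ →* GL (Fin N) ℤ_[2]) (κ : Γ →* Multiplicative (ZMod (2 ^ a)))
    (t : ZMod (2 ^ a) → Γ) (c : κ.ker → Fin N → ℚ_[2]) (g : Γ) : IndV N a :=
  fun y => actR ρ (t y) (ext κ.ker c ((t y)⁻¹ * g * t (y - kapR κ g)))

section

variable {S : Finset ℕ} {ρ : Γ →* GL (Fin N) ℤ_[2]} {κ : Γ →* Multiplicative (ZMod (2 ^ a))}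
  {t : ZMod (2 ^ a) → Γ} {c : κ.ker → Fin N → ℚ_[2]}

theorem mem_kerR_t (ht : ∀ y, kapR κ (t y) = y) (g : Γ) (y : ZMod (2 ^ a)) :
    (t y)⁻¹ * g * t (y - kapR κ g) ∈ κ.ker := by
  rw [mem_kerR_iff, kapR_mul, kapR_mul, kapR_inv, ht, ht]
  abel

theorem indR_mul (ht : ∀ y, kapR κ (t y) = y) (C : IsCoc (actR ρ) c) (g h : Γ) (y : ZMod (2 ^ a)) :
    indR ρ κ t c (g * h) y = indR ρ κ t c g y + actR ρ g (indR ρ κ t c h (y - kapR κ g)) := by
  have A := actR_isAct ρ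
  have hu := mem_kerR_t ht g y
  have hv := mem_kerR_t ht h (y - kapR κ g)
  unfold indR
  have e : (t y)⁻¹ * (g * h) * t (y - kapR κ (g * h)) =
      ((t y)⁻¹ * g * t (y - kapR κ g)) *
        ((t (y - kapR κ g))⁻¹ * h * t (y - kapR κ g - kapR κ h)) := by
    rw [kapR_mul, sub_sub]
    group
  rw [e, C.ext_mul hu hv, A.add, ← A.mul, ← A.mul]
  congr 2
  group

theorem indR_cont (hκ : Continuous (kapR κ)) (hc : Continuous c) : Continuous (indR ρ κ t c) := by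
  have hop : IsOpen (κ.ker : Set Γ) := by
    have h1 : (κ.ker : Set Γ) = kapR κ ⁻¹' {0} := by
      ext g
      exact mem_kerR_iff κ g
    rw [h1]
    exact (isOpen_discrete _).preimage hκ
  refine continuous_pi fun y => ?_
  show Continuous fun g => actR ρ (t y) (ext κ.ker c ((t y)⁻¹ * g * t (y - kapR κ g)))
  have h2 : Continuous fun g => t (y - kapR κ g) :=
    (continuous_of_discreteTopology (f := fun z => t (y - z))).comp hκ
  exact (actR_cont ρ (t y)).comp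
    ((ext_cont hop hc).comp ((continuous_const.mul continuous_id).mul h2))

/-- the local condition for a group of elements which act trivially on `V` -/
theorem locR_aux {E : Γ → IndV N a} {I : Set Γ} (h1 : (1 : Γ) ∈ I)
    (hI : ∀ g ∈ I, ∀ h ∈ I, g * h ∈ I)
    (hIi : ∀ g ∈ I, g⁻¹ ∈ I) (hρ : ∀ g ∈ I, ∀ v : Fin N → ℚ_[2], actR ρ g v = v)
    (hE : ∀ g h y, E (g * h) y = E g y + actR ρ g (E h (y - kapR κ g)))
    (h0 : ∀ g ∈ I, kapR κ g = 0 → E g = 0) :
    ∃ f : IndV N a, ∀ g ∈ I, ∀ y, E g y = actR ρ g (f (y - kapR κ g)) - f y := by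
  let K : AddSubgroup (ZMod (2 ^ a)) :=
    { carrier := {k | ∃ g ∈ I, kapR κ g = k}
      zero_mem' := ⟨1, h1, kapR_one κ⟩
      add_mem' := by
        rintro _ _ ⟨g, hg, rfl⟩ ⟨h, hh, rfl⟩
        exact ⟨g * h, hI g hg h hh, kapR_mul κ g h⟩
      neg_mem' := by
        rintro _ ⟨g, hg, rfl⟩
        exact ⟨g⁻¹, hIi g hg, kapR_inv κ g⟩ }
  let r : ZMod (2 ^ a) → ZMod (2 ^ a) :=
    fun y => Quotient.out (QuotientAddGroup.mk y : ZMod (2 ^ a) ⧸ K)
  have hr : ∀ y, ∃ g ∈ I, kapR κ g = r y - y := by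
    intro y
    obtain ⟨k, hk⟩ := QuotientAddGroup.mk_out_eq_add K y
    obtain ⟨g, hg, hgk⟩ := k.2
    refine ⟨g, hg, ?_⟩
    rw [hgk]
    show (k : ZMod (2 ^ a)) = Quotient.out (QuotientAddGroup.mk y : ZMod (2 ^ a) ⧸ K) - y
    rw [hk]
    abel
  choose G hG hGk using hr
  have hsame : ∀ g ∈ I, ∀ h ∈ I, kapR κ g = kapR κ h → E g = E h := by
    intro g hg h hh hk
    have h2 : E (g⁻¹ * h) = 0 := h0 _ (hI _ (hIi g hg) h hh) (by
      rw [kapR_mul, kapR_inv, hk]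
      abel)
    funext y
    have h3 := hE g (g⁻¹ * h) y
    rw [mul_inv_cancel_left, h2, hρ g hg] at h3
    rw [h3]
    show E g y = E g y + 0
    rw [add_zero]
  refine ⟨fun y => E (G y) (r y), fun g hg y => ?_⟩
  have hrr : r (y - kapR κ g) = r y := by
    have : (QuotientAddGroup.mk (y - kapR κ g) : ZMod (2 ^ a) ⧸ K) = QuotientAddGroup.mk y := by
      rw [QuotientAddGroup.eq]
      exact ⟨g, hg, by abel⟩
    show Quotient.out (QuotientAddGroup.mk (y - kapR κ g) : ZMod (2 ^ a) ⧸ K) = _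
    rw [this]
  have h4 : E (G (y - kapR κ g)) = E (G y * g) := hsame _ (hG _) _ (hI _ (hG _) g hg) (by
    rw [hGk, hrr, kapR_mul, hGk]
    abel)
  show E g y = actR ρ g (E (G (y - kapR κ g)) (r (y - kapR κ g))) - E (G y) (r y)
  rw [hρ g hg, h4, hrr, hE, hρ _ (hG y), hGk]
  have h5 : r y - (r y - y) = y := by abel
  rw [h5]
  abel

theorem inr_one' (P : Ideal (𝓞 QBar)) : (1 : GQ) ∈ Inr P := fun x => ⟨0, P.zero_mem, by
  show ((0 : 𝓞 QBar) : QBar) = (x : QBar) - x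
  rw [sub_self]
  rfl⟩

theorem indR_mem (hρ : ∀ p : ℕ, p.Prime → p ∉ S → ∀ P : Ideal (𝓞 QBar), P.IsMaximal →
      (p : 𝓞 QBar) ∈ P → ∀ g : Γ, (g : GQ) ∈ Inr P → ρ g = 1)
    (hκ : Continuous (kapR κ)) (ht : ∀ y, kapR κ (t y) = y)
    (hc : InSelK S ρ κ.ker c) : InSelR S ρ κ ⊤ (indR ρ κ t c) := by
  refine ⟨indR_cont hκ hc.cont, fun _ => Submodule.mem_top, fun g h y => indR_mul ht hc.mul g h y,
    fun p hp hpS P hP hpP => ?_⟩
  have h1 : ∀ g : Γ, (g : GQ) ∈ Inr P → ∀ v : Fin N → ℚ_[2], actR ρ g v = v := fun g hg v =>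
    actR_triv ρ (hρ p hp hpS P hP hpP g hg) v
  obtain ⟨f, hf⟩ := locR_aux (E := indR ρ κ t c) (I := {g : Γ | (g : GQ) ∈ Inr P}) (inr_one' P)
    (fun g hg h hh => inr_mul hg hh)
    (fun g hg => inr_inv hg) h1 (fun g h y => indR_mul ht hc.mul g h y) (by
      intro g hg hk
      funext y
      have h2 : (((t y)⁻¹ * g * t y : Γ) : GQ) ∈ Inr (conj (t y : GQ) P) := conj_inr (t y : GQ) hg
      have h3 : (t y)⁻¹ * g * t y ∈ κ.ker := by
        rw [mem_kerR_iff, kapR_mul, kapR_mul, kapR_inv, hk]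
        abel
      obtain ⟨v, hv⟩ := hc.loc p hp hpS (conj (t y : GQ) P) (conj_max (t y : GQ) hP)
        (conj_mem (t y : GQ) hpP)
      have h4 := hv ⟨_, h3⟩ h2
      have h5 : actR ρ ((t y)⁻¹ * g * t y) v = v :=
        actR_triv ρ (hρ p hp hpS _ (conj_max (t y : GQ) hP) (conj_mem (t y : GQ) hpP) _ h2) v
      have h6 : c ⟨_, h3⟩ = 0 := by
        rw [h4]
        show actR ρ ((t y)⁻¹ * g * t y) v - v = 0
        rw [h5, sub_self]
      show actR ρ (t y) (ext κ.ker c ((t y)⁻¹ * g * t (y - kapR κ g))) = 0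
      rw [hk, sub_zero, ext_mem c h3, h6]
      exact (actR_isAct ρ).zero (t y))
  exact ⟨f, Submodule.mem_top, hf⟩

end

/-- **Job 12** (Shapiro's lemma, relative version) -/
theorem indG : StIndG := by
  intro N a Γ S ρ κ hρ hκ hsurj
  have hex : ∀ y : ZMod (2 ^ a), ∃ g : Γ, kapR κ g = y ∧ (y = 0 → g = 1) := by
    intro y
    by_cases hy : y = 0
    · exact ⟨1, by rw [kapR_one, hy], fun _ => rfl⟩
    · obtain ⟨g, hg⟩ := hsurj (Multiplicative.ofAdd y)
      refine ⟨g, ?_, fun h => absurd h hy⟩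
      unfold kapR
      rw [hg]
      rfl
  choose t ht ht0 using hex
  have A := actR_isAct ρ
  let F : SelK S ρ κ.ker →ₗ[ℚ_[2]] SelR S ρ κ (⊤ : Submodule ℚ_[2] (IndV N a)) :=
    { toFun := fun c => ⟨indR ρ κ t c.1, indR_mem hρ hκ ht c.2⟩
      map_add' := fun c c' => by
        apply Subtype.ext
        funext g y
        show actR ρ (t y) (ext κ.ker (c.1 + c'.1) ((t y)⁻¹ * g * t (y - kapR κ g))) =
          actR ρ (t y) (ext κ.ker c.1 ((t y)⁻¹ * g * t (y - kapR κ g))) +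
          actR ρ (t y) (ext κ.ker c'.1 ((t y)⁻¹ * g * t (y - kapR κ g)))
        rw [← A.add]
        congr 1
        exact ext_add' c.1 c'.1 _
      map_smul' := fun x c => by
        apply Subtype.ext
        funext g y
        show actR ρ (t y) (ext κ.ker (x • c.1) ((t y)⁻¹ * g * t (y - kapR κ g))) =
          x • actR ρ (t y) (ext κ.ker c.1 ((t y)⁻¹ * g * t (y - kapR κ g)))
        rw [← actR_smul]
        congr 1
        exact ext_smul' x c.1 _ }
  refine ⟨F, fun c c' h => ?_⟩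
  apply Subtype.ext
  funext g
  have h1 : indR ρ κ t c.1 (g : Γ) 0 = indR ρ κ t c'.1 (g : Γ) 0 :=
    congrFun (congrFun (congrArg Subtype.val h) (g : Γ)) 0
  have hk : kapR κ (g : Γ) = 0 := (mem_kerR_iff κ g).1 g.2
  have h2 : ∀ d : κ.ker → Fin N → ℚ_[2], indR ρ κ t d (g : Γ) 0 = d g := by
    intro d
    show actR ρ (t 0) (ext κ.ker d ((t 0)⁻¹ * (g : Γ) * t (0 - kapR κ (g : Γ)))) = d g
    rw [hk, sub_zero, ht0 0 rfl, inv_one, one_mul, mul_one, A.one, ext_mem d g.2]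
  rw [h2, h2] at h1
  exact h1

end Pool.Agent.H24.GS
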