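import Mathlib
import Pool.Agent.H64.GS.Stm9

/-!
# Moments for the twists over a quadratic field (the adaptation of `Pool.Agent.H64.GS.D2`)
-/

set_option autoImplicit false

namespace Pool.Agent.H24.GS

open Finset Pool.Agent.W262.RK Pool.Agent.W762.RK2 Polynomial
open Pool.Agent.H64.PM Pool.Agent.H64.QM Pool.Agent.H64.GS

variable {N a : ℕ} {Γ : Subgroup GQ}

lemma frobR_of (hRoot : StRoot) {E : ℤ[X]} {D : ℚ[X]}
    (hED : ∀ θ : QBar, E.eval₂ (Int.castRingHom QBar) θ = 0 → aeval θ D = 0)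
    {ρ : Γ →* GL (Fin N) ℤ_[2]} (hA : AdpR D ρ) (σ : GQ) {p : ℕ} (hp : p.Prime) (hp2 : p ≠ 2)
    (hl : ¬ (p : ℤ) ∣ E.leadingCoeff) {x : ℤ} (hx : (p : ℤ) ∣ E.eval x)
    (hx' : ¬ (p : ℤ) ∣ E.derivative.eval x) : FrobR ρ σ p := by
  obtain ⟨P, hP, hpP, θ, hθ, φ, hφ, hfr⟩ := hRoot E p x hp hp2 hl hx hx'
  refine ⟨P, hP, hpP, φ, hfr, hA θ (hED θ hθ) φ hφ, hA (σ θ) ?_ (σ * φ * σ⁻¹) ?_⟩
  · rw [Polynomial.aeval_algHom_apply, hED θ hθ, map_zero]
  · rw [AlgEquiv.mul_apply, AlgEquiv.mul_apply, ← AlgEquiv.mul_apply σ⁻¹ σ, inv_mul_cancel]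
    show σ (φ θ) = σ θ
    rw [hφ]

/-- a bound which does not depend on `ρ` and `κ` -/
lemma dsR (hSel : StSelR) {S : Finset ℕ} {ρ : Γ →* GL (Fin N) ℤ_[2]} (hQ : Quad S Γ)
    (hU : UniR S ρ) {b : ℕ} (hb : b < a)
    {κ : Γ →* Multiplicative (ZMod (2 ^ a))} {n : ℤ} {s : QBar} (hn : n ≠ 0)
    (hs : s ^ 2 = (n : QBar)) (hκ : CycR S s κ) :
    FiniteDimensional ℚ_[2] (SelR S ρ κ (Alt N a b)) ∧
      2 ^ Module.finrank ℚ_[2] (SelR S ρ κ (Alt N a b)) ≤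
      (2 * 2 ^ (S ∪ n.natAbs.primeFactors).card *
        NT 1 1 (fun p => Lk' (fun _ _ => (1 : ℤ)) p (0, false))) ^ (N * 2 * 2 ^ b) := by
  obtain ⟨σ, hσ⟩ := hQ.ex
  refine hSel N a b Γ S ρ κ n s σ hQ hU hn hs hκ hb hσ 1 squarefree_one
    (fun p hp h => absurd (Nat.dvd_one.1 h) hp.ne_one) (S ∪ n.natAbs.primeFactors)
    (fun p hp h _ => ?_) (fun _ => (0, false)) (fun p hp h => absurd (Nat.dvd_one.1 h) hp.ne_one)
  rw [mem_union, Nat.mem_primeFactors]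
  rcases h with h | h
  · exact Or.inl h
  · exact Or.inr ⟨hp, Int.natCast_dvd.1 h, Int.natAbs_ne_zero.2 hn⟩

lemma CycR_congr {S : Finset ℕ} {s s' : QBar} {κ : Γ →* Multiplicative (ZMod (2 ^ a))}
    (h : ∀ g : GQ, g s = s ↔ g s' = s') (hκ : CycR S s κ) : CycR S s' κ :=
  ⟨hκ.cont, fun g => (h g).symm.trans (hκ.par g), fun p hp hpS P hP hpP hfix =>
    hκ.ram p hp hpS P hP hpP fun g hg => (h g).2 (hfix g hg)⟩

/-- finite dimension, all twists -/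
lemma selR_fin (hSel : StSelR) {S : Finset ℕ} {ρ : Γ →* GL (Fin N) ℤ_[2]} (hQ : Quad S Γ)
    (hU : UniR S ρ) {b : ℕ} (hb : b < a)
    {κ : Γ →* Multiplicative (ZMod (2 ^ a))} {x : ℚ} (hx : x ≠ 0) {s : QBar}
    (hs : s ^ 2 = (x : QBar)) (hκ : CycR S s κ) :
    FiniteDimensional ℚ_[2] (SelR S ρ κ (Alt N a b)) := by
  obtain ⟨n, t, hn, ht, hant⟩ := int_class hx
  have hrt := rt_sq (n : ℚ)
  exact (dsR hSel hQ hU hb hn (by rw [hrt]; exact int_cast_rat _)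
    (CycR_congr (fix_iff ht hant hs hrt) hκ)).1

lemma FKR_nonneg (Γ : Subgroup GQ) (N a b : ℕ) (S : Finset ℕ) (D : ℚ[X]) (k : ℕ) (x : ℚ) :
    0 ≤ FKR Γ N a b S D k x :=
  Real.sSup_nonneg fun _ ⟨_, _, _, _, h⟩ => by
    rw [h]
    positivity

lemma FKR_eq {b : ℕ} {S : Finset ℕ} {D : ℚ[X]} {k : ℕ} {x y t : ℚ} (ht : t ≠ 0)
    (hxy : x = y * t ^ 2) : FKR Γ N a b S D k x = FKR Γ N a b S D k y := by
  unfold FKR ValR
  have h1 : ∀ κ : Γ →* Multiplicative (ZMod (2 ^ a)), CycR S (rt x) κ ↔ CycR S (rt y) κ :=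
    fun κ => ⟨CycR_congr (fix_iff ht hxy (rt_sq x) (rt_sq y)),
      CycR_congr fun g => (fix_iff ht hxy (rt_sq x) (rt_sq y) g).symm⟩
  simp only [h1]

lemma le_FKR (hSel : StSelR) {S : Finset ℕ} {D : ℚ[X]}
    {ρ : Γ →* GL (Fin N) ℤ_[2]} (hQ : Quad S Γ) (hU : UniR S ρ) (hA : AdpR D ρ) {b : ℕ}
    (hba : b < a) {κ : Γ →* Multiplicative (ZMod (2 ^ a))} (k : ℕ) {x : ℚ} (hx : x ≠ 0)
    (hκ : CycR S (rt x) κ) :
    ((2 : ℝ) ^ Module.finrank ℚ_[2] (SelR S ρ κ (Alt N a b))) ^ k ≤ FKR Γ N a b S D k x := by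
  obtain ⟨n, t, hn, ht, hant⟩ := int_class hx
  rw [FKR_eq ht hant]
  have hκ' := CycR_congr (fix_iff ht hant (rt_sq x) (rt_sq (n : ℚ))) hκ
  refine le_csSup ?_ ⟨ρ, κ, ⟨hU, hA⟩, hκ', rfl⟩
  refine ⟨((((2 * 2 ^ (S ∪ n.natAbs.primeFactors).card *
        NT 1 1 (fun p => Lk' (fun _ _ => (1 : ℤ)) p (0, false))) ^ (N * 2 * 2 ^ b) : ℕ)) : ℝ) ^ k, ?_⟩
  rintro _ ⟨ρ', κ', ⟨hU', _⟩, hκ'', rfl⟩
  refine pow_le_pow_left₀ (by positivity) ?_ _
  exact_mod_cast (dsR hSel hQ hU' hba hn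
    (by rw [rt_sq]; exact int_cast_rat _ : rt ((n : ℤ) : ℚ) ^ 2 = ((n : ℤ) : QBar)) hκ'').2

/-- integral version -/
theorem FKR_int (k N a b : ℕ) (hba : b < a) (hSel : StSelR)
    (hRoot : StRoot) (S : Finset ℕ) (hQ : Quad S Γ)
    (E : ℤ[X]) (hE : Squarefree (E.map (Int.castRingHom ℚ))) (hd : 0 < E.natDegree) (D : ℚ[X])
    (hED : ∀ θ : QBar, E.eval₂ (Int.castRingHom QBar) θ = 0 → aeval θ D = 0) (κ0 : ℕ) :
    ∃ C0 : ℝ, 0 ≤ C0 ∧ ∀ (a0 : ℤ) (H W : ℕ), 1 ≤ H → 1 ≤ W → a0.natAbs + H + W ≤ H ^ κ0 →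
      ∑ q ∈ BX a0 H W, (if (sc E q.2).eval (q.1 + a0 : ℤ) ≠ 0 then
      FKR Γ N a b S D k ((sc E q.2).eval (q.1 + a0 : ℤ) : ℤ) else 0) ≤ C0 * H * W := by
  classical
  obtain ⟨σ, hσ⟩ := hQ.ex
  have hE0 : E ≠ 0 := by
    rintro rfl
    simp at hd
  obtain ⟨z1, hz1⟩ := smp_of E hE
  obtain ⟨z2, hz2⟩ := Pool.Agent.H474R2.PG.rho_le E hE0
  set n := E.natDegree + 1 with hn
  have hρ : ∀ p : ℕ, p.Prime → z2 < p → rho E p ≤ n := fun p hp hzp =>
    (hz2 p hp hzp).trans (Nat.le_succ _)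
  -- an irreducible factor
  obtain ⟨h, hh, hhd, hhD⟩ : ∃ h : ℤ[X], Irreducible h ∧ 0 < h.natDegree ∧ h ∣ E := by
    by_contra hcon
    push Not at hcon
    have key : ∀ g : ℤ[X], g ≠ 0 → g ∣ E → g.natDegree = 0 := by
      intro g
      refine WfDvdMonoid.induction_on_irreducible (motive := fun g => g ≠ 0 → g ∣ E →
        g.natDegree = 0) g ?_ ?_ ?_
      · intro h0
        exact absurd rfl h0
      · intro u hu _ _
        exact natDegree_eq_zero_of_isUnit hu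
      · intro g i hg0 hi ih _ hd
        have h1 : i ∣ E := (Dvd.intro _ rfl).trans hd
        have h2 : g ∣ E := (Dvd.intro_left _ rfl).trans hd
        have h3 : i.natDegree = 0 := by
          by_contra h4
          exact hcon i hi (Nat.pos_of_ne_zero h4) h1
        rw [natDegree_mul hi.ne_zero hg0, h3, ih hg0 h2]
    have := key E hE0 (dvd_refl E)
    omega
  obtain ⟨z3, hz3⟩ := avgN (k * (N * 2 ^ b)) 1 E n (by omega) z2 hρ h hh hhd hhD (ak fun _ _ => (1 : ℤ))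
  set z := z1 + z2 + z3 + (2 * n + 2) + E.leadingCoeff.natAbs + ∑ p ∈ S, p with hz
  have hlc : ∀ p : ℕ, p.Prime → z < p → ¬ (p : ℤ) ∣ E.leadingCoeff := by
    intro p _ hzp h1
    have := Nat.le_of_dvd (Int.natAbs_pos.2 (leadingCoeff_ne_zero.2 hE0)) (Int.natCast_dvd.1 h1)
    omega
  have hzS : ∀ p ∈ S, p ≤ z := fun p hp =>
    (single_le_sum (f := fun p => p) (fun _ _ => Nat.zero_le _) hp).trans (Nat.le_add_left _ _)
  have hsmp : Smp E z := fun p hp hzp => hz1 p hp (by omega)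
  obtain ⟨C', hC'⟩ := hz3 z (by omega)
  obtain ⟨C0, hC00, hC0⟩ := mainN (k * (N * 2 ^ b)) 1 E (Lk' fun _ _ => (1 : ℤ)) n z (by omega) (by omega)
    (fun p hp hzp => hρ p hp (by omega)) hsmp hlc
    (fun p _ _ τ => XN_Lk' (fun _ _ => (1 : ℤ)) p τ) C' hC' (2 ^ (2 * z + 2)) (by positivity)
    (fun m w => FKR Γ N a b S D k ((sc E w).eval m : ℤ))
    (fun m w => FKR_nonneg _ _ _ _ _ _ _ _)
    (fun m w hmw h0 y X K M hy hM hb hK => by
      refine Real.sSup_le ?_ (by positivity)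
      rintro _ ⟨ρ, κ, ⟨hU, hA⟩, hκ, rfl⟩
      set v := (sc E w).eval m with hv
      set s1 := q1 z y v with hs1
      have hmem : s1 ∈ (PP z y).divisors := q1_mem z y v
      have hsq : Squarefree s1 := dv_squarefree hmem
      set Rst : Finset ℕ := range (z + 1) ∪
        ((2 * v).natAbs.primeFactors.filter (fun q => ¬ q ∣ s1)) with hRst
      have h1 := (hSel N a b Γ S ρ κ v (rt ((v : ℤ) : ℚ)) σ hQ hU h0
        (by rw [rt_sq]; exact int_cast_rat _ : rt ((v : ℤ) : ℚ) ^ 2 = ((v : ℤ) : QBar)) hκ hba hσ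
        s1 hsq
        (fun p hp hps => by
          have g1 := (q1_prime hp).1 (hs1 ▸ hps)
          have g2 := (dv_prime hmem hp hps).1
          refine ⟨fun h => ?_, g1.2.1, g1.2.2, ?_⟩
          · have := hzS p h
            omega
          · have hpw : ¬ p ∣ w := fun h => sc_not_dvd3 hp h hmw (hlc p hp g2) g1.2.1
            have g3 := ty3_dvd (f := E) (m := m) hp hpw
            have g4 := (sc_dvd (f := E) hp hpw 1 (by rw [pow_one]; exact g3)).1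
              (by rw [pow_one]; exact g1.2.1)
            rw [pow_one] at g4
            exact frobR_of hRoot hED hA σ hp (by omega) (hlc p hp g2) g4 (hsmp p hp g2 _ g4))
        Rst (fun p hp hor hns => by
          rw [hRst, mem_union, mem_range, mem_filter, Nat.mem_primeFactors]
          rcases hor with h | h
          · left
            have := hzS p h
            omega
          · right
            exact ⟨⟨hp, Int.natCast_dvd.1 (h.mul_left 2), Int.natAbs_ne_zero.2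
              (mul_ne_zero (by norm_num) h0)⟩, hns⟩) (ty3 E w · m) (fun p hp hps => rfl)).2
      have hRc : Rst.card ≤ (z + 1) + (z + M * K + (q2 z y v).primeFactors.card) := by
        refine (card_union_le _ _).trans (add_le_add (by rw [card_range]) ?_)
        exact badQ (by omega) hy hM h0 hb hK (fun q _ h => h)
      have h2 : 2 * 2 ^ Rst.card ≤ 2 ^ (2 * z + 2) * ((2 ^ 1) ^ M) ^ K *
          (2 ^ 1) ^ (q2 z y v).primeFactors.card := by
        rw [← pow_succ', ← pow_mul, ← pow_mul, ← pow_mul, ← pow_add, ← pow_add]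
        refine Nat.pow_le_pow_right (by norm_num) ?_
        rw [one_mul, one_mul]
        omega
      have h3 : (2 : ℕ) ^ Module.finrank ℚ_[2] (SelR S ρ κ (Alt N a b)) ≤ (2 ^ (2 * z + 2) * ((2 ^ 1) ^ M) ^ K *
          (2 ^ 1) ^ (q2 z y v).primeFactors.card *
          NT 1 s1 (fun p => Lk' (fun _ _ => (1 : ℤ)) p (ty3 E w p m))) ^ (N * 2 * 2 ^ b) :=
        h1.trans (Nat.pow_le_pow_left (Nat.mul_le_mul_right _ h2) _)
      have h4 : ((2 : ℝ) ^ Module.finrank ℚ_[2] (SelR S ρ κ (Alt N a b))) ≤ ((2 : ℝ) ^ (2 * z + 2) * ((2 ^ 1) ^ M) ^ K *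
          (2 ^ 1) ^ (q2 z y v).primeFactors.card *
          (NT 1 s1 (fun p => Lk' (fun _ _ => (1 : ℤ)) p (ty3 E w p m)) : ℝ)) ^ (N * 2 * 2 ^ b) := by
        exact_mod_cast h3
      refine (pow_le_pow_left₀ (by positivity) h4 _).trans (le_of_eq ?_)
      rw [← pow_mul]
      congr 1
      ring) κ0
  exact ⟨C0, hC00, fun a0 H W hH hW hbox => hC0 a0 H W hH hW hbox⟩

/-- rational version -/
theorem FKR_one (k N a b : ℕ) (hba : b < a) (hSel : StSelR)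
    (hRoot : StRoot) (S : Finset ℕ) (hQ : Quad S Γ)
    (P : ℚ[X]) (hP : P ≠ 0) (D : ℚ[X]) (hPD : ∀ θ : QBar, aeval θ P = 0 → aeval θ D = 0) (κ0 : ℕ) :
    ∃ C0 : ℝ, 0 ≤ C0 ∧ ∀ (a0 : ℤ) (H W : ℕ), 1 ≤ H → 1 ≤ W → a0.natAbs + H + W ≤ H ^ κ0 →
      ∑ q ∈ BX a0 H W, (if bf P (q.1 + a0) q.2 ≠ 0 then
        FKR Γ N a b S D k (bf P (q.1 + a0) q.2) else 0) ≤ C0 * H * W := by
  classical
  obtain ⟨Sp, q, g, hq, hS, hDe⟩ := int_part P hP
  have hDpol : P = C q * Sp.map (Int.castRingHom ℚ) * g ^ 2 := by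
    apply Polynomial.funext
    intro t
    rw [hDe, eval_mul, eval_mul, eval_C, eval_pow]
  have hS0 : Sp.map (Int.castRingHom ℚ) ≠ 0 := hS.ne_zero
  have hr0 : g ≠ 0 := by
    rintro rfl
    apply hP
    rw [hDpol]
    ring
  have hdeg : P.natDegree = Sp.natDegree + 2 * g.natDegree := by
    rw [hDpol, natDegree_mul (mul_ne_zero (C_ne_zero.2 hq) hS0) (pow_ne_zero 2 hr0),
      natDegree_C_mul hq, natDegree_pow,
      natDegree_map_eq_of_injective Int.cast_injective]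
  -- the integer
  set A : ℤ := q.num * q.den with hA
  have hqd : (q.den : ℚ) ≠ 0 := by exact_mod_cast q.den_ne_zero
  have hAq : q = (A : ℚ) * (1 / (q.den : ℚ)) ^ 2 := by
    have h1 := Rat.mul_den_eq_num q
    rw [hA]
    push_cast
    rw [← h1]
    field_simp
  have hA0 : A ≠ 0 := mul_ne_zero (Rat.num_ne_zero.2 hq) (by exact_mod_cast q.den_ne_zero)
  set E : ℤ[X] := C A * Sp with hE
  have hEsq : Squarefree (E.map (Int.castRingHom ℚ)) := by
    rw [hE, Polynomial.map_mul, Polynomial.map_C]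
    have hu : IsUnit (C ((Int.castRingHom ℚ) A)) := by
      rw [isUnit_C, isUnit_iff_ne_zero]
      have h1 : ((A : ℤ) : ℚ) ≠ 0 := by exact_mod_cast hA0
      exact h1
    have hass : Associated (Sp.map (Int.castRingHom ℚ))
        (C ((Int.castRingHom ℚ) A) * Sp.map (Int.castRingHom ℚ)) :=
      (associated_isUnit_mul_left_iff hu).2 (Associated.refl _) |>.symm
    exact hass.squarefree_iff.1 hS
  have hED : ∀ θ : QBar, E.eval₂ (Int.castRingHom QBar) θ = 0 → aeval θ D = 0 := by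
    intro θ hθ
    apply hPD
    rw [hE, eval₂_mul, eval₂_C] at hθ
    have hA1 : (Int.castRingHom QBar) A ≠ 0 := by
      rw [eq_intCast]
      exact_mod_cast hA0
    have h1 : Sp.eval₂ (Int.castRingHom QBar) θ = 0 := (mul_eq_zero.1 hθ).resolve_left hA1
    have h2 : aeval θ (Sp.map (Int.castRingHom ℚ)) = 0 := by
      rw [aeval_def, eval₂_map, ← h1]
      congr 1
    rw [hDpol, map_mul, map_mul, h2, mul_zero, zero_mul]
  have hEdeg : E.natDegree = Sp.natDegree := by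
    rw [hE, natDegree_C_mul hA0]
  have hscE : ∀ w : ℕ, sc E w = C A * sc Sp w := fun w => by rw [hE, sc_mul, sc_C]
  have hbf : ∀ (m : ℤ) (w : ℕ), w ≠ 0 → bf P m w = (((sc E w).eval m : ℤ) : ℚ) *
      ((1 / (q.den : ℚ)) * ((w : ℚ) ^ g.natDegree * g.eval ((m : ℚ) / w))) ^ 2 := by
    intro m w hw
    unfold bf
    rw [hDe, hscE, eval_mul, eval_C, Int.cast_mul, sc_eval_rat Sp w hw, hdeg, pow_add, pow_mul']
    nth_rewrite 1 [hAq]
    ring
  have hwne : ∀ (a0 : ℤ) (H W : ℕ), ∀ t ∈ BX a0 H W, t.2 ≠ 0 := by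
    intro a0 H W t ht
    have := (mem_BX.1 ht).1.2.1
    omega
  have hne : ∀ (m : ℤ) (w : ℕ), w ≠ 0 → bf P m w ≠ 0 →
      (sc E w).eval m ≠ 0 ∧
        (1 / (q.den : ℚ)) * ((w : ℚ) ^ g.natDegree * g.eval ((m : ℚ) / w)) ≠ 0 := by
    intro m w hw ht
    rw [hbf m w hw] at ht
    constructor
    · intro h
      exact ht (by rw [h]; simp)
    · intro h
      exact ht (by rw [h]; ring)
  have hrk : ∀ (m : ℤ) (w : ℕ), w ≠ 0 → bf P m w ≠ 0 →
      FKR Γ N a b S D k (bf P m w) = FKR Γ N a b S D k ((sc E w).eval m : ℤ) := by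
    intro m w hw ht
    obtain ⟨hG0, hGe⟩ := hne m w hw ht
    exact FKR_eq hGe (hbf m w hw)
  rcases Nat.eq_zero_or_pos Sp.natDegree with hdeg0 | hdeg0
  · -- constant squarefree part
    obtain ⟨c, hc⟩ : ∃ c : ℤ, E = C c := ⟨_, eq_C_of_natDegree_eq_zero (hEdeg.trans hdeg0)⟩
    have h3 : (0 : ℝ) ≤ FKR Γ N a b S D k (c : ℤ) := FKR_nonneg _ _ _ _ _ _ _ _
    refine ⟨FKR Γ N a b S D k (c : ℤ), h3, fun a0 H W hH hW _ => ?_⟩
    have h1 : ∀ t ∈ BX a0 H W, (if bf P (t.1 + a0) t.2 ≠ 0 then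
        FKR Γ N a b S D k (bf P (t.1 + a0) t.2) else 0) ≤ FKR Γ N a b S D k (c : ℤ) := by
      intro t ht
      split_ifs with h2
      · rw [hrk _ _ (hwne a0 H W t ht) h2, hc, sc_C, eval_C]
      · exact h3
    refine (sum_le_card_nsmul _ _ _ h1).trans ?_
    rw [nsmul_eq_mul]
    have h2 := card_BX_le a0 H W
    nlinarith [mul_le_mul_of_nonneg_right h2 h3]
  · obtain ⟨C0, hC00, hC0⟩ := FKR_int k N a b hba hSel hRoot S hQ E hEsq (by omega) D hED κ0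
    refine ⟨C0, hC00, fun a0 H W hH hW hbox => ?_⟩
    refine le_trans ?_ (hC0 a0 H W hH hW hbox)
    refine sum_le_sum fun t ht => ?_
    have hw := hwne a0 H W t ht
    split_ifs with h1 h2 h2
    · rw [hrk _ _ hw h1]
    · exact absurd (hne _ _ hw h1).1 h2
    · exact FKR_nonneg _ _ _ _ _ _ _ _
    · exact le_rfl

/-- **Job 15** -/
theorem momR (hSel : StSelR) (hRoot : StRoot) : StMomR := by
  intro k N a b Γ S D κ0 hQ hba hD
  exact ⟨fun ρ κ x hU hA hx hκ => ⟨selR_fin hSel hQ hU hba hx (rt_sq x) hκ,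
    le_FKR hSel hQ hU hA hba k hx hκ⟩, FKR_nonneg Γ N a b S D k,
    FKR_one k N a b hba hSel hRoot S hQ D hD D (fun _ h => h) κ0⟩

end Pool.Agent.H24.GS
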